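import Pool.Agent.N266.LS.Stm
import Pool.Agent.N273.LT.Sum2

/-!
# The doubling index and the growth exponent on Liouville spheres

The subtask LS/DOUB of helper266.
-/

set_option autoImplicit false

open MeasureTheory Set

namespace Pool.Agent.N692.LS

open Pool.Agent.N266.LS
open Pool.Agent.N273.LT (Alt sc n1 n2 zz UB)
open Pool.Agent.R220.LV (W mem_of_eigen)
open Pool.Agent.Y291.DB (len gdist disc doubling Eigen per_all bounded_of_per)

theorem zz_nonneg (φ : ℝ → ℝ → ℝ) {w : ℝ} (hw : 0 ≤ w) (X Y : ℝ) : 0 ≤ zz φ w X Y := by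
  unfold zz
  refine add_nonneg (intervalIntegral.integral_nonneg (by linarith) fun _ _ => Nat.cast_nonneg _)
    (intervalIntegral.integral_nonneg (by linarith) fun _ _ => Nat.cast_nonneg _)

theorem nn_pos (L : ℝ) {lam : ℝ} (hlam : 0 < lam) (p : ℝ × ℝ) : 0 < nn L lam p := by
  unfold nn D2
  apply Real.sqrt_pos.2
  have h1 : 0 ≤ Real.sqrt lam := Real.sqrt_nonneg _
  have h2 : 0 ≤ lam * (Real.sin (2 * Real.pi * p.1 / L) ^ 2 + Real.sin p.2 ^ 2) := by positivity
  linarith

theorem small_mono {a b c : ℝ} (ha : 0 ≤ a) (hab : a ≤ b) {v lam : ℝ}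
    (h : |b ^ 2 * lam * v| ≤ c) : |a ^ 2 * lam * v| ≤ c := by
  refine le_trans ?_ h
  rw [mul_assoc, mul_assoc, abs_mul (a ^ 2), abs_mul (b ^ 2), abs_of_nonneg (sq_nonneg a),
    abs_of_nonneg (sq_nonneg b)]
  exact mul_le_mul_of_nonneg_right (pow_le_pow_left₀ ha hab 2) (abs_nonneg _)

/-- **LS/DOUB.** -/
theorem t_DOUB (hC : S_CHAIN) (hP : S_POT) (hB : S_BIN) (hD : S_DIN) (hZ : S_CNT) : S_DOUB := by
  intro L m K C hL hm hK hC0
  obtain ⟨C₀, hC₀, chain⟩ := hC
  obtain ⟨β₀, hβ₀, hβ₀1, bin⟩ := hB L K C hL hK hC0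
  obtain ⟨A, hA, din⟩ := hD L m K C hL hm hK hC0
  obtain ⟨h₀, hh₀, hh₀1, pot⟩ := hP L K (A + 10) hL hK (by linarith)
  obtain ⟨Z₀, hZ₀, cnt⟩ := hZ L K 1 hL hK one_pos
  set h : ℝ := min h₀ (β₀ / 2) with hhdef
  have hh : 0 < h := lt_min hh₀ (by linarith)
  have hhh : h ≤ h₀ := min_le_left _ _
  have hhβ : h ≤ β₀ / 2 := min_le_right _ _
  set N : ℕ := ⌈(A + 1) / h⌉₊ with hN
  have hN1 : A + 1 ≤ N * h := by
    have := Nat.le_ceil ((A + 1) / h)
    rw [div_le_iff₀ hh] at this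
    exact this
  have hN2 : N * h ≤ A + 1 + h := by
    have := (Nat.ceil_lt_add_one (a := (A + 1) / h) (by positivity)).le
    rw [← hN] at this
    calc (N : ℝ) * h ≤ ((A + 1) / h + 1) * h := mul_le_mul_of_nonneg_right this hh.le
      _ = A + 1 + h := by field_simp
  have hNpos : (0 : ℝ) < N := by
    have : 0 < (N : ℝ) * h := by linarith
    exact pos_of_mul_pos_left this hh.le
  have hlog : 0 < Real.log 2 := Real.log_pos one_lt_two
  refine ⟨β₀ / 2, N * C₀ / (h * Real.log 2), (N + 2) * h, by linarith, by linarith, by positivity,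
    by positivity, ?_⟩
  intro f g lam φ hLM hφ p X Y hX hY
  have hlam : 0 < lam := hφ.pos
  have hn : 0 < nn L lam p := nn_pos L hlam p
  set n := nn L lam p with hndef
  have hbin := bin f g m lam hLM hlam p
  have mono : ∀ {a b : ℝ}, a ≤ b → a / n ≤ b / n := fun hab =>
    div_le_div_of_nonneg_right hab hn.le
  have hXY : (X, Y) ∈ disc (dens f g) L 0 p (C / Real.sqrt lam) :=
    hbin (X, Y) (hX.trans (mono (by linarith))) (hY.trans (mono (by linarith)))
  refine ⟨hXY, ?_⟩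
  have hw0 : 0 ≤ (N + 2) * h / n := by positivity
  have hZ0 : 0 ≤ zz (fun x y => φ (x, y)) ((N + 2) * h / n) X Y := zz_nonneg _ hw0 X Y
  set Z := zz (fun x y => φ (x, y)) ((N + 2) * h / n) X Y with hZdef
  have hU : UB (fun x y => φ (x, y)) := (cnt f g m lam φ hLM hφ).1
  refine max_le ?_ (by positivity)
  rcases le_or_gt (doubling (dens f g) L 0 φ p (C / Real.sqrt lam)) 0 with hneg | ht
  · exact hneg.trans (by positivity)
  have hmem : φ ∈ W hLM.cf hLM.cg L lam := mem_of_eigen hLM.cf hLM.cg hφ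
  obtain ⟨B, hB0, hB⟩ := bounded_of_per hL hφ.smooth.continuous hφ.perx hφ.pery
  have hbdd : ∀ s : Set (ℝ × ℝ), BddAbove ((fun q => |φ q|) '' s) := by
    intro s
    refine ⟨B, ?_⟩
    rintro _ ⟨q, _, rfl⟩
    exact hB q
  set S := sSup ((fun q => |φ q|) '' disc (dens f g) L 0 p (C / Real.sqrt lam)) with hSd
  set T := sSup ((fun q => |φ q|) '' disc (dens f g) L 0 p (2 * (C / Real.sqrt lam))) with hT
  have hd : doubling (dens f g) L 0 φ p (C / Real.sqrt lam) = Real.logb 2 (T / S) := rfl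
  have hS0 : 0 ≤ S := Real.sSup_nonneg (by rintro _ ⟨q, _, rfl⟩; exact abs_nonneg _)
  have hT0 : 0 ≤ T := Real.sSup_nonneg (by rintro _ ⟨q, _, rfl⟩; exact abs_nonneg _)
  have hTS : 0 < T / S := by
    refine lt_of_le_of_ne (by positivity) fun h0 => ?_
    rw [hd, ← h0, Real.logb_zero] at ht
    exact lt_irrefl _ ht
  have hS1 : 0 < S := by
    refine lt_of_le_of_ne hS0 fun h0 => ?_
    rw [← h0, div_zero] at hTS
    exact lt_irrefl _ hTS
  have hr : 0 < h / n := by positivity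
  have hpot := pot f g m lam hLM hlam p
  have hN5 : ∀ a b c : ℝ, |a - b| ≤ (N + 5) * (h / n) → |b - c| ≤ β₀ / 2 / n →
      |a - c| ≤ (A + 10) / n := by
    intro a b c h1 h2
    have h3 : |a - c| ≤ |a - b| + |b - c| := abs_sub_le _ _ _
    have h4 : (N + 5) * (h / n) + β₀ / 2 / n = ((N + 5) * h + β₀ / 2) / n := by ring
    have h5 : ((N + 5) * h + β₀ / 2) / n ≤ (A + 10) / n := mono (by nlinarith)
    linarith
  have key := chain f g hLM.cf hLM.cg L lam hL hlam φ hmem hU (h / n) ((N + 2) * h / n) X Y S N hr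
    (fun x hx => small_mono hr.le (mono hhh) (hpot.1 x (hN5 x X p.1 hx hX)))
    (fun y hy => small_mono hr.le (mono hhh) (hpot.2 y (hN5 y Y p.2 hy hY)))
    (by rw [mul_div_assoc])
    (fun x y hx hy => by
      refine le_csSup (hbdd _) ⟨(x, y), hbin (x, y) ?_ ?_, rfl⟩
      · have e1 : |x - p.1| ≤ |x - X| + |X - p.1| := abs_sub_le _ _ _
        have e2 : h / n + β₀ / 2 / n ≤ β₀ / n := by
          rw [← add_div]
          exact mono (by linarith)
        show |x - p.1| ≤ _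
        linarith
      · have e1 : |y - p.2| ≤ |y - Y| + |Y - p.2| := abs_sub_le _ _ _
        have e2 : h / n + β₀ / 2 / n ≤ β₀ / n := by
          rw [← add_div]
          exact mono (by linarith)
        show |y - p.2| ≤ _
        linarith)
  rw [← hZdef] at key
  have h1 : T ≤ S * Real.exp (N * (C₀ * (1 + Z / (h / n)))) := by
    refine Real.sSup_le ?_ (by positivity)
    rintro _ ⟨q, hq, rfl⟩
    obtain ⟨i, j, h2, h3⟩ := din f g lam hLM hlam p q hq
    rw [← hndef] at h2 h3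
    have hNδ : A / n + β₀ / 2 / n ≤ N * (h / n) := by
      rw [← add_div, ← mul_div_assoc]
      exact mono (by linarith)
    have h4 := key (q.1 + i * L) (q.2 + i * 0 + j * (2 * Real.pi))
      (by
        have e1 : |q.1 + i * L - X| ≤ |q.1 + i * L - p.1| + |p.1 - X| := abs_sub_le _ _ _
        rw [abs_sub_comm p.1 X] at e1
        linarith)
      (by
        rw [mul_zero, add_zero]
        have e1 : |q.2 + j * (2 * Real.pi) - Y| ≤
          |q.2 + j * (2 * Real.pi) - p.2| + |p.2 - Y| := abs_sub_le _ _ _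
        rw [abs_sub_comm p.2 Y] at e1
        linarith)
    rwa [per_all hφ.perx hφ.pery i j q] at h4
  have h2 : T / S ≤ Real.exp (N * (C₀ * (1 + Z / (h / n)))) := by
    rw [div_le_iff₀ hS1]
    linarith
  have h3 : doubling (dens f g) L 0 φ p (C / Real.sqrt lam) * Real.log 2 ≤
      N * (C₀ * (1 + Z / (h / n))) := by
    rw [hd, Real.logb, div_mul_cancel₀ _ hlog.ne', Real.log_le_iff_le_exp hTS]
    exact h2
  have h4 : (N : ℝ) * (C₀ * (1 + Z / (h / n))) ≤ N * C₀ / h * (1 + Z * n) := by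
    have e1 : Z / (h / n) = Z * n / h := by
      rw [div_div_eq_mul_div]
    rw [e1]
    have e2 : (N : ℝ) * C₀ / h * (1 + Z * n) = N * (C₀ * (1 / h + Z * n / h)) := by ring
    rw [e2]
    have e3 : 1 ≤ 1 / h := by
      rw [le_div_iff₀ hh]
      linarith
    gcongr
  have h5 : (N : ℝ) * C₀ / (h * Real.log 2) * (1 + Z * n) =
      N * C₀ / h * (1 + Z * n) / Real.log 2 := by
    field_simp
  rw [h5, le_div_iff₀ hlog]
  exact h3.trans h4

end Pool.Agent.N692.LS
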